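import Pool.Agent.Q10.KZB

/-!
# The abc inequality over `ℤ[(1 + √5) / 2]` for almost all triples on a curve over `ℚ`

Let `K = ℚ(√5)`, and let `t ↦ (P 0 (t) : P 1 (t) : P 2 (t))` be a map of degree `D` from the
projective line to the line `a + b + c = 0` over `K`, all of whose `q` points over the three points
with `abc = 0` are defined over `K`, but not necessarily over `ℚ`. We consider the triples in lowest
terms, up to units, in the image of the rational `t`, ordered by their height. Almost all of them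
satisfy `H(a, b, c) ≤ c rad(a, b, c) ^ M` if `M > D / q` (`< 1`) and the number of the rational
points among the `q` points is not one.
-/

set_option autoImplicit false

namespace Pool.Agent.Results.MP_2a5a28_nt.AlmostAllOnCurves

open NumberField IsDedekindDomain Polynomial

variable {K : Type} [Field K] [NumberField K]

/-- the triples in lowest terms with `a + b + c = 0` and `abc ≠ 0` -/
structure Triple (t : 𝓞 K × 𝓞 K × 𝓞 K) : Prop where
  sum : t.1 + t.2.1 + t.2.2 = 0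
  ne : t.1 * t.2.1 * t.2.2 ≠ 0
  cop : Ideal.span {t.1, t.2.1, t.2.2} = (⊤ : Ideal (𝓞 K))

/-- the height `H(a, b, c)`: the product over the field embeddings `φ : K → ℂ` (two real ones when
`K = ℚ(√5)`) of `max (|φ a|, |φ b|, |φ c|)` -/
noncomputable def height (t : 𝓞 K × 𝓞 K × 𝓞 K) : ℝ :=
  ∏ φ : K →+* ℂ, max ‖φ t.1‖ (max ‖φ t.2.1‖ ‖φ t.2.2‖)

/-- the radical: the product of the norms of the prime ideals dividing `abc` -/
noncomputable def rad (t : 𝓞 K × 𝓞 K × 𝓞 K) : ℝ :=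
  ∏ᶠ (P : HeightOneSpectrum (𝓞 K)) (_ : t.1 * t.2.1 * t.2.2 ∈ P.asIdeal),
    (Ideal.absNorm P.asIdeal : ℝ)

/-- the ratio `a / c`, which determines the triple in lowest terms up to a unit -/
noncomputable def ratio (t : 𝓞 K × 𝓞 K × 𝓞 K) : K := (t.1 : K) / (t.2.2 : K)

/-- the triple is proportional to `(P 0 (τ), P 1 (τ), P 2 (τ))` for a rational number `τ` -/
def OnCurve (P : Fin 3 → K[X]) (t : 𝓞 K × 𝓞 K × 𝓞 K) : Prop :=
  Triple t ∧ ∃ (τ : ℚ) (s : K), (t.1 : K) = s * (P 0).eval (τ : K) ∧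
    (t.2.1 : K) = s * (P 1).eval (τ : K) ∧ (t.2.2 : K) = s * (P 2).eval (τ : K)

/-- the ratios of the triples on the curve with `H ≤ B` -/
def AllUpTo (P : Fin 3 → K[X]) (B : ℝ) : Set K := {y | ∃ t, OnCurve P t ∧ height t ≤ B ∧ ratio t = y}

/-- the ratios of those among them which violate `H ≤ c rad ^ M` -/
def Violations (P : Fin 3 → K[X]) (M c B : ℝ) : Set K :=
  {y | ∃ t, OnCurve P t ∧ height t ≤ B ∧ c * rad t ^ M < height t ∧ ratio t = y}

open Classical in
/-- the points `t` of the projective line (`none` is infinity) with `P 0 (t) P 1 (t) P 2 (t) = 0` -/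
noncomputable def zeros {K : Type} [Field K] (P : Fin 3 → K[X]) : Finset (Option K) :=
  ((∏ i, P i).roots.toFinset).image some ∪
    if ∃ i j, (P i).natDegree < (P j).natDegree then {none} else ∅

open Classical in
/-- the number of the rational points among them -/
noncomputable def rationalZeros (P : Fin 3 → K[X]) : ℕ :=
  ((zeros P).filter fun a => ∃ b : Option ℚ, a = Option.map (fun x : ℚ => (x : K)) b).card

/-- the number of the zeros; a rational zero does not count if it is the only one -/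
noncomputable def effective (P : Fin 3 → K[X]) : ℕ :=
  if rationalZeros P = 1 then (zeros P).card - 1 else (zeros P).card

section

open Pool.Agent.Q10.KY Pool.Agent.Q10.KZ.Go

variable {P : Fin 3 → K[X]}

theorem triple_iff (t : 𝓞 K × 𝓞 K × 𝓞 K) : Triple t ↔ AllThinSetsAtOnce.Triple t :=
  ⟨fun h => ⟨h.1, h.2, h.3⟩, fun h => ⟨h.1, h.2, h.3⟩⟩

theorem onCurve_iff (t : 𝓞 K × 𝓞 K × 𝓞 K) : OnCurve P t ↔ On P t := by
  unfold OnCurve On
  rw [triple_iff]

omit [NumberField K] in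
theorem zeros_eq : zeros P = pts P := by
  classical
  ext a
  unfold zeros pts rts
  rw [Finset.mem_union, Finset.mem_union]
  refine or_congr Iff.rfl ?_
  by_cases h : Unequal P
  · rw [if_pos h, if_pos (show ∃ i j, (P i).natDegree < (P j).natDegree from h)]
  · rw [if_neg h, if_neg (show ¬ ∃ i j, (P i).natDegree < (P j).natDegree from h)]

theorem rationalZeros_eq : rationalZeros P = zq P := by
  unfold rationalZeros zq
  rw [zeros_eq]

theorem effective_eq : effective P = zs P := by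
  unfold effective zs
  rw [zeros_eq, rationalZeros_eq]

theorem mason (hP : ∀ i, P i ≠ 0) (hsum : P 0 + P 1 + P 2 = 0)
    (hcop : IsCoprime (P 0) (P 1)) (hs : ∀ i, (P i).Splits)
    {D : ℕ} (hD : 1 ≤ D) (hdeg : ∀ i, (P i).natDegree ≤ D) (hdeg' : ∃ i, (P i).natDegree = D) :
    D + 2 ≤ (zeros P).card := by
  classical
  have h := Pool.Agent.Y557.NF.mason_q hP hs hsum hcop hdeg hdeg' hD
  refine h.trans (le_of_eq ?_)
  unfold zeros Pool.Agent.Y557.NF.nz
  rw [Finset.card_union_of_disjoint, Finset.card_image_of_injective _ (Option.some_injective _)]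
  · refine congrArg₂ (· + ·) ?_ ?_
    · unfold Pool.Agent.Y557.NF.rts
      refine congrArg Finset.card (Finset.ext fun r => ?_)
      exact (@Multiset.mem_toFinset _ (_) _ _).trans (@Multiset.mem_toFinset _ (_) _ _).symm
    · by_cases h5 : ∃ i j, (P i).natDegree < (P j).natDegree
      · rw [if_pos h5, if_pos (show Pool.Agent.Y557.NF.Unequal P from h5), Finset.card_singleton]
      · rw [if_neg h5, if_neg (show ¬ Pool.Agent.Y557.NF.Unequal P from h5), Finset.card_empty]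
  · rw [Finset.disjoint_left]
    intro a ha hb
    obtain ⟨r, -, rfl⟩ := Finset.mem_image.1 ha
    split_ifs at hb
    · simp at hb
    · simp at hb

end

open Pool.Agent.Q10.KY Pool.Agent.Q10.KZ Pool.Agent.Q10.KZ.Go in
/-- **Theorem.** Let `K = ℚ(√5)` and let `P 0 + P 1 + P 2 = 0` be nonzero polynomials over `K` of
maximal degree `D ≥ 1`, coprime, all of whose zeros are in `K`, `q` the number of their zeros on the
projective line, `r` the number of the rational zeros among them, and `m = q` if `r ≠ 1`,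
`m = q - 1` if `r = 1`. Consider the triples in lowest terms with `a + b + c = 0`, up to units,
proportional to `(P 0 (t), P 1 (t), P 2 (t))` for a rational number `t`.

(0) `q ≥ D + 2`.

(1) For all `M, c, δ > 0` at most `C B ^ (1 / (m M) + δ)` of them with `H ≤ B` violate
`H ≤ c rad ^ M`.

(2) For every `δ > 0` and all large `B` at least `B ^ (1 / D - δ)` of them satisfy `H ≤ B`.

(3) If `M > D / m`, for example `M = 1` if `r ≠ 1`, then the number in (1) is at most `B ^ (-ν)`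
times the number in (2), for some `ν > 0` and all large `B`. -/
theorem result (K : Type) [Field K] [NumberField K] (hK : Module.finrank ℚ K = 2)
    (h5 : ∃ s : K, s ^ 2 = 5) (P : Fin 3 → K[X]) (hP : ∀ i, P i ≠ 0)
    (hsum : P 0 + P 1 + P 2 = 0) (hcop : IsCoprime (P 0) (P 1)) (hs : ∀ i, (P i).Splits)
    (D : ℕ) (hD : 1 ≤ D) (hdeg : ∀ i, (P i).natDegree ≤ D) (hdeg' : ∃ i, (P i).natDegree = D)
    (q : ℕ) (hq : (zeros P).card = q) :
    D + 2 ≤ q ∧
    (∀ M c δ : ℝ, 0 < M → 0 < c → 0 < δ → ∃ C : ℝ, ∀ B : ℝ, 1 ≤ B →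
      ((Violations P M c B).ncard : ℝ) ≤ C * B ^ (1 / ((effective P : ℝ) * M) + δ)) ∧
    (∀ δ : ℝ, 0 < δ → ∃ B₀ : ℝ, ∀ B : ℝ, B₀ ≤ B →
      B ^ (1 / (D : ℝ) - δ) ≤ ((AllUpTo P B).ncard : ℝ)) ∧
    (∀ M c : ℝ, (D : ℝ) / (effective P : ℝ) < M → 0 < c →
      ∃ ν : ℝ, 0 < ν ∧ ∃ B₀ : ℝ, ∀ B : ℝ, B₀ ≤ B →
      ((Violations P M c B).ncard : ℝ) ≤ B ^ (-ν) * ((AllUpTo P B).ncard : ℝ)) := by
  classical
  have hm := mason hP hsum hcop hs hD hdeg hdeg'
  rw [hq] at hm
  rw [zeros_eq] at hq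
  obtain ⟨⟨h1, -, h3, -⟩, -, h7⟩ := main hK h5 hP hsum hcop hs hD hdeg hdeg' hq
  rw [S1_zs hK, ← effective_eq] at h1 h7
  have hq0 : (0 : ℝ) < q := by exact_mod_cast (by omega : 0 < q)
  have hDR : (0 : ℝ) < D := by exact_mod_cast hD
  have hm0 : (0 : ℝ) < effective P := by linarith
  have hinv : 1 / ((effective P : ℝ) / 2) = 2 / (effective P : ℝ) := one_div_div _ _
  -- the square root of `X`
  have hsq : ∀ X : ℝ, 1 ≤ X → 1 ≤ X ^ (1 / 2 : ℝ) ∧ (X ^ (1 / 2 : ℝ)) ^ 2 = X ∧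
      (∀ κ : ℝ, ((X ^ (1 / 2 : ℝ)) ^ κ) ^ 2 = X ^ κ) ∧
      ∀ e : ℝ, (X ^ (1 / 2 : ℝ)) ^ e = X ^ (e / 2) := by
    intro X hX
    have hXp : 0 < X := by linarith
    refine ⟨Real.one_le_rpow hX (by norm_num), ?_, ?_, ?_⟩
    · rw [← Real.rpow_natCast, ← Real.rpow_mul hXp.le]
      norm_num
    · intro κ
      rw [← Real.rpow_natCast, ← Real.rpow_mul (by positivity), ← Real.rpow_mul hXp.le]
      congr 1
      push_cast
      ring
    · intro e
      rw [← Real.rpow_mul hXp.le]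
      congr 1
      ring
  have b1 : ∀ κ ε : ℝ, 0 < κ → 0 < ε → ∃ C : ℝ, 0 < C ∧ ∀ X : ℝ, 1 ≤ X →
      (OnXB P X (X ^ κ)).Finite ∧
      ((OnXB P X (X ^ κ)).ncard : ℝ) ≤ C * X ^ (1 / (effective P : ℝ) + ε) := by
    intro κ ε hκ hε
    obtain ⟨C, hC, h⟩ := h1 κ (2 * ε) hκ (by positivity)
    refine ⟨C, hC, fun X hX => ?_⟩
    obtain ⟨s1, s2, s3, s4⟩ := hsq X hX
    have h8 := h (X ^ (1 / 2 : ℝ)) s1
    rw [s2, s3, s4, hinv] at h8
    have e : (2 / (effective P : ℝ) + 2 * ε) / 2 = 1 / (effective P : ℝ) + ε := by ring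
    rw [e] at h8
    exact h8
  have b3 : ∀ κ : ℝ, (D : ℝ) / q ≤ κ → ∃ c : ℝ, 0 < c ∧ ∃ X₀ : ℝ, 1 ≤ X₀ ∧ ∀ X : ℝ, X₀ ≤ X →
      c * X ^ (1 / (q : ℝ)) ≤ ((OnXB P X (X ^ κ)).ncard : ℝ) := by
    intro κ hκ
    obtain ⟨c, hc, X0, hX0, h⟩ := h3 κ hκ
    refine ⟨c, hc, X0 ^ 2, one_le_pow₀ hX0, fun X hX => ?_⟩
    have hX1 : 1 ≤ X := (one_le_pow₀ hX0).trans hX
    obtain ⟨s1, s2, s3, s4⟩ := hsq X hX1
    have h9 : X0 ≤ X ^ (1 / 2 : ℝ) := by
      rw [← s2] at hX
      exact (pow_le_pow_iff_left₀ (by linarith) (by linarith) (by norm_num)).1 hX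
    have h8 := h (X ^ (1 / 2 : ℝ)) h9
    rw [s2, s3, s4] at h8
    have e : 2 / (q : ℝ) / 2 = 1 / (q : ℝ) := by ring
    rw [e] at h8
    exact h8
  have hcop' : ∃ u : Fin 3 → K[X], ∑ i, u i * P i = 1 := by
    obtain ⟨a, b, hab⟩ := hcop
    refine ⟨![a, b, 0], ?_⟩
    rw [Fin.sum_univ_three]
    simp only [Matrix.cons_val_zero, Matrix.cons_val_one, Matrix.cons_val, zero_mul, add_zero]
    exact hab
  have hfin : ∀ B : ℝ, (AllUpTo P B).Finite := by
    intro B
    refine ((par_finite hP hcop' hD hdeg hdeg' (Real.log B)).image (val P)).subset ?_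
    rintro y ⟨t, ht, hB, rfl⟩
    rw [onCurve_iff] at ht
    obtain ⟨hT, τ, s, e0, e1, e2⟩ := ht
    obtain ⟨g1, g2, g3, g4⟩ := data hT e0 e1 e2
    refine ⟨τ, ?_, g4.symm⟩
    show Height.logHeight (fun i => (P i).eval (τ : K)) ≤ Real.log B
    rw [g3]
    exact Real.log_le_log (height_pos' hT) hB
  obtain ⟨v1, v2, v3⟩ := viol_abs (fun X B => OnXB P X B) (AllUpTo P)
    (fun M c B => Violations P M c B) (S := (effective P : ℝ)) (D := 2 * (D : ℝ))
    (q := 2 * (q : ℝ)) hm0 (by positivity) (by positivity) b1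
    (fun κ hκ => by
      have e1 : 2 * (D : ℝ) / (2 * (q : ℝ)) = (D : ℝ) / q := by field_simp
      have e2 : 2 / (2 * (q : ℝ)) = 1 / (q : ℝ) := by field_simp
      rw [e1] at hκ
      rw [e2]
      exact b3 κ hκ.le)
    (fun M c B X hM hc hX hB1 hB2 y hy => by
      obtain ⟨t, ht, g2, g3, g4⟩ := hy
      refine ⟨t, (onCurve_iff t).1 ht, ?_, g2.trans hB2, g4⟩
      have hr0 : 0 < rad t := AllThinSetsAtOnce.rad_pos ((triple_iff t).1 ht.1)
      have g5 : c * rad t ^ M ≤ c * X ^ M := (g3.le.trans g2).trans hB1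
      exact (Real.rpow_le_rpow_iff hr0.le (by linarith) hM).1 (le_of_mul_le_mul_left g5 hc))
    (fun X B y hy => by
      obtain ⟨t, ht, -, g2, g3⟩ := hy
      exact ⟨t, (onCurve_iff t).2 ht, g2, g3⟩) hfin
  have e2D : 2 / (2 * (D : ℝ)) = 1 / (D : ℝ) := by field_simp
  rw [e2D] at v2
  refine ⟨hm, ?_, v2, ?_⟩
  · intro M c δ hM hc hδ
    obtain ⟨C, -, h⟩ := v1 M c δ hM hc hδ
    exact ⟨C, h⟩
  · intro M c hM hc
    refine v3 M c ?_ hc
    have e : 2 * (D : ℝ) / (2 * (effective P : ℝ)) = (D : ℝ) / (effective P : ℝ) := by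
      field_simp
    rw [e]
    exact hM

end Pool.Agent.Results.MP_2a5a28_nt.AlmostAllOnCurves
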