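import Pool.Agent.Q245.Vl.NormOne
import Pool.Agent.Y382.Gold

/-!
# The abc inequality over `ℤ[(1 + √5) / 2]` for the triples with `N(a) = N(b)`

It is equivalent to the abc inequality over `ℤ`. The same holds for every quadratic extension
`K = F(√δ)` of a number field `F`, where `δ = 4 ^ j m` with `m` odd.
-/

set_option autoImplicit false
set_option maxHeartbeats 1000000

namespace Pool.Agent.Results.MP_2a5a28_nt.EqualNorms

open NumberField IsDedekindDomain Module

variable {K : Type} [Field K] [NumberField K]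

/-- the triples in lowest terms with `a + b + c = 0` and `abc ≠ 0` -/
structure Triple (t : 𝓞 K × 𝓞 K × 𝓞 K) : Prop where
  sum : t.1 + t.2.1 + t.2.2 = 0
  ne : t.1 * t.2.1 * t.2.2 ≠ 0
  cop : Ideal.span {t.1, t.2.1, t.2.2} = (⊤ : Ideal (𝓞 K))

/-- the height `H(a, b, c)`: the product over the field embeddings `φ : K → ℂ` (two real ones when
`K = ℚ(√5)`, one when `K = ℚ`) of `max (|φ a|, |φ b|, |φ c|)` -/
noncomputable def height (t : 𝓞 K × 𝓞 K × 𝓞 K) : ℝ :=
  ∏ φ : K →+* ℂ, max ‖φ t.1‖ (max ‖φ t.2.1‖ ‖φ t.2.2‖)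

/-- the radical: the product of the norms of the prime ideals dividing `abc` -/
noncomputable def rad (t : 𝓞 K × 𝓞 K × 𝓞 K) : ℝ :=
  ∏ᶠ (P : HeightOneSpectrum (𝓞 K)) (_ : t.1 * t.2.1 * t.2.2 ∈ P.asIdeal),
    (Ideal.absNorm P.asIdeal : ℝ)

/-- the abc inequality over the integers of `K`, for the triples in `Q` -/
def Abc (K : Type) [Field K] [NumberField K] (Q : 𝓞 K × 𝓞 K × 𝓞 K → Prop) : Prop :=
  ∀ ε : ℝ, 0 < ε → ∃ C : ℝ, ∀ t : 𝓞 K × 𝓞 K × 𝓞 K, Triple t → Q t →
    height t ≤ C * rad t ^ (1 + ε)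

/-- the height of a vector in `K³`, relative to `K`: the product of the maxima of `|x i|` over all
places -/
noncomputable def heightP (x : Fin 3 → K) : ℝ := Height.mulHeight x

/-- the radical of a vector in `K³`: the product of the norms of the prime ideals at which the
three coordinates do not have the same absolute value -/
noncomputable def radP (x : Fin 3 → K) : ℝ :=
  ∏ᶠ (v : FinitePlace K) (_ : ∃ i j, v (x i) ≠ v (x j)),
    (Ideal.absNorm v.maximalIdeal.asIdeal : ℝ)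

/-- the abc inequality over `K` for all vectors `x` in `P` (no coprimality; any number field) -/
def AbcP (K : Type) [Field K] [NumberField K] (P : (Fin 3 → K) → Prop) : Prop :=
  ∀ ε : ℝ, 0 < ε → ∃ C : ℝ, ∀ x : Fin 3 → K, P x → x 0 + x 1 + x 2 = 0 → (∀ i, x i ≠ 0) →
    heightP x ≤ C * radP x ^ (1 + ε)

/-- the vector of a triple, over `K` -/
def vecK (t : 𝓞 K × 𝓞 K × 𝓞 K) : Fin 3 → K := fun i => algebraMap (𝓞 K) K (![t.1, t.2.1, t.2.2] i)

lemma fp_lt (v : FinitePlace K) (a : 𝓞 K) : v (a : K) < 1 ↔ a ∈ v.maximalIdeal.asIdeal := by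
  rw [← FinitePlace.mk_maximalIdeal v, FinitePlace.maximalIdeal_mk, FinitePlace.mk_apply]
  exact FinitePlace.norm_lt_one_iff_mem K _ a

lemma fp_le (v : FinitePlace K) (a : 𝓞 K) : v (a : K) ≤ 1 := by
  rw [← FinitePlace.mk_maximalIdeal v, FinitePlace.mk_apply]
  exact FinitePlace.norm_le_one K _ a

lemma mem_iff {t : 𝓞 K × 𝓞 K × 𝓞 K} (h : Triple t) (v : FinitePlace K) :
    t.1 * t.2.1 * t.2.2 ∈ v.maximalIdeal.asIdeal ↔
      ∃ i j, v (vecK t i) ≠ v (vecK t j) := by
  have hpr := v.maximalIdeal.isPrime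
  constructor
  · intro hm
    by_contra hcon
    push Not at hcon
    have h1 : ∃ i, ![t.1, t.2.1, t.2.2] i ∈ v.maximalIdeal.asIdeal := by
      rcases hpr.mem_or_mem hm with h3 | h3
      · rcases hpr.mem_or_mem h3 with h4 | h4
        · exact ⟨0, h4⟩
        · exact ⟨1, h4⟩
      · exact ⟨2, h3⟩
    obtain ⟨i, hi⟩ := h1
    have h3 : ∀ j, ![t.1, t.2.1, t.2.2] j ∈ v.maximalIdeal.asIdeal := by
      intro j
      rw [← fp_lt] at hi ⊢
      have := hcon i j
      unfold vecK at this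
      rwa [← this]
    apply hpr.ne_top
    rw [eq_top_iff, ← h.cop, Ideal.span_le]
    rintro x (rfl | rfl | rfl)
    · exact h3 0
    · exact h3 1
    · exact h3 2
  · rintro ⟨i, j, hij⟩
    by_contra hn
    have h1 : ∀ i, v (vecK t i) = 1 := by
      intro i
      apply le_antisymm (fp_le v _)
      by_contra hlt
      push Not at hlt
      have hi := (fp_lt v _).mp hlt
      apply hn
      fin_cases i
      · exact Ideal.mul_mem_right _ _ (Ideal.mul_mem_right _ _ hi)
      · exact Ideal.mul_mem_right _ _ (Ideal.mul_mem_left _ _ hi)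
      · exact Ideal.mul_mem_left _ _ hi
    exact hij (by rw [h1, h1])

lemma rad_vec {t : 𝓞 K × 𝓞 K × 𝓞 K} (h : Triple t) : radP (vecK t) = rad t := by
  unfold radP rad
  rw [← finprod_comp_equiv (FinitePlace.equivHeightOneSpectrum (K := K))]
  refine finprod_congr fun v => ?_
  rw [FinitePlace.equivHeightOneSpectrum_apply]
  exact finprod_congr_Prop (propext (mem_iff h v).symm) fun _ => rfl

theorem sup3 (f : Fin 3 → ℝ) : ⨆ i, f i = max (f 0) (max (f 1) (f 2)) := by
  apply le_antisymm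
  · refine ciSup_le fun i => ?_
    fin_cases i
    · exact le_max_left _ _
    · exact (le_max_left _ _).trans (le_max_right _ _)
    · exact (le_max_right _ _).trans (le_max_right _ _)
  · have h : ∀ i, f i ≤ ⨆ i, f i := fun i => le_ciSup (Set.finite_range f).bddAbove i
    exact max_le (h 0) (max_le (h 1) (h 2))

/-- taken from `Pool.Agent.Results.MP_2a5a28_nt.AllThinSetsAtOnce` -/
theorem height_vec {t : 𝓞 K × 𝓞 K × 𝓞 K} (h : Triple t) : heightP (vecK t) = height t := by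
  classical
  have h1 : t.1 ≠ 0 := fun h3 => h.ne (by rw [h3]; ring)
  have hv : (![t.1, t.2.1, t.2.2] : Fin 3 → 𝓞 K) ≠ 0 := fun h3 => h1 (congrFun h3 0)
  have hvK : vecK t ≠ 0 := by
    intro h3
    have h4 : algebraMap (𝓞 K) K t.1 = 0 := congrFun h3 0
    exact h1 (RingOfIntegers.coe_eq_zero_iff.1 h4)
  unfold heightP
  rw [NumberField.mulHeight_eq hvK]
  have hfin : ∏ᶠ v : FinitePlace K, ⨆ i, v (vecK t i) = 1 := by
    have h2 := NumberField.absNorm_mul_finprod_finitePlace_eq_one (K := K) hv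
    have h3 : Ideal.span (Set.range (![t.1, t.2.1, t.2.2] : Fin 3 → 𝓞 K)) = ⊤ := by
      rw [← h.cop]
      congr 1
      ext x
      simp only [Set.mem_range, Fin.exists_fin_succ, Set.mem_insert_iff,
        Set.mem_singleton_iff]
      simp [eq_comm]
    rw [h3, Ideal.absNorm_top, Nat.cast_one, one_mul] at h2
    exact h2
  rw [hfin, mul_one]
  unfold height
  have e : ∀ φ : K →+* ℂ, max ‖φ t.1‖ (max ‖φ t.2.1‖ ‖φ t.2.2‖) =
      (fun w : InfinitePlace K => ⨆ i, w (vecK t i)) (InfinitePlace.mk φ) := by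
    intro φ
    simp only
    rw [sup3]
    simp only [InfinitePlace.apply]
    rfl
  rw [Finset.prod_congr rfl fun φ _ => e φ,
    ← Finset.prod_fiberwise (s := Finset.univ) (g := InfinitePlace.mk)]
  refine Finset.prod_congr rfl fun w _ => ?_
  rw [Finset.prod_congr rfl (g := fun _ => ⨆ i, w (vecK t i)) (by
    intro φ hφ
    rw [Finset.mem_filter] at hφ
    simp only [hφ.2]), Finset.prod_const]
  congr 1
  exact (InfinitePlace.card_filter_mk_eq w).symm

lemma exists_triple [IsPrincipalIdealRing (𝓞 K)] {y : Fin 3 → K}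
    (hy : ∀ i, y i ≠ 0) (hsum : y 0 + y 1 + y 2 = 0) :
    ∃ t : 𝓞 K × 𝓞 K × 𝓞 K, Triple t ∧ ∃ s : K, s ≠ 0 ∧ vecK t = s • y := by
  obtain ⟨a, b, hb, hab, he⟩ : ∃ a b : 𝓞 K, b ≠ 0 ∧ IsCoprime a b ∧ y 0 / y 1 = (a : K) / b := by
    obtain ⟨a, b, h1, h2⟩ := IsFractionRing.exists_reduced_fraction (A := 𝓞 K) (y 0 / y 1)
    refine ⟨a, b, nonZeroDivisors.coe_ne_zero b, isRelPrime_iff_isCoprime.1 h1, ?_⟩
    rw [← h2, IsFractionRing.mk'_eq_div]
  have hbK : (b : K) ≠ 0 := fun h3 => hb (RingOfIntegers.coe_eq_zero_iff.1 h3)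
  have hy0 := hy 0
  have hy1 := hy 1
  have hy2 := hy 2
  have ha : (a : K) = b / y 1 * y 0 := by
    field_simp at he ⊢
    linear_combination -he
  have hs : (b : K) / y 1 ≠ 0 := div_ne_zero hbK hy1
  have hb' : (b : K) = b / y 1 * y 1 := by field_simp
  have hc' : ((-(a + b) : 𝓞 K) : K) = b / y 1 * y 2 := by
    have e : y 2 = -(y 0 + y 1) := by linear_combination hsum
    have e3 : ((-(a + b) : 𝓞 K) : K) = -((a : K) + (b : K)) := by
      show algebraMap (𝓞 K) K (-(a + b)) = -(algebraMap (𝓞 K) K a + algebraMap (𝓞 K) K b)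
      rw [map_neg, map_add]
    rw [e3, e]
    linear_combination -ha - hb'
  have hne : ∀ (c : 𝓞 K) (i : Fin 3), (c : K) = b / y 1 * y i → c ≠ 0 := by
    intro c i hc h0
    rw [h0] at hc
    have h1 : (b : K) / y 1 * y i = 0 := by
      rw [← hc]
      simp
    exact mul_ne_zero hs (hy i) h1
  refine ⟨(a, b, -(a + b)), ⟨by ring, ?_, ?_⟩, (b : K) / y 1, hs, ?_⟩
  · exact mul_ne_zero (mul_ne_zero (hne a 0 ha) hb) (hne _ 2 hc')
  · rw [Ideal.eq_top_iff_one]
    obtain ⟨u, v, huv⟩ := hab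
    rw [← huv]
    refine Ideal.add_mem _ (Ideal.mul_mem_left _ _ (Ideal.subset_span ?_))
      (Ideal.mul_mem_left _ _ (Ideal.subset_span ?_))
    · exact Set.mem_insert _ _
    · exact Set.mem_insert_of_mem _ (Set.mem_insert _ _)
  · funext i
    fin_cases i
    · exact ha
    · exact hb'
    · exact hc'

lemma radP_smul {s : K} (hs : s ≠ 0) (x : Fin 3 → K) : radP (s • x) = radP x := by
  unfold radP
  refine finprod_congr fun v => ?_
  refine finprod_congr_Prop (propext ?_) fun _ => rfl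
  have h0 : v s ≠ 0 := (v.1.pos hs).ne'
  simp only [Pi.smul_apply, smul_eq_mul, map_mul]
  constructor
  · rintro ⟨i, j, hij⟩
    exact ⟨i, j, fun h => hij (by rw [h])⟩
  · rintro ⟨i, j, hij⟩
    exact ⟨i, j, fun h => hij (mul_left_cancel₀ h0 h)⟩

/-- over a principal ideal domain the two forms are equivalent -/
lemma pid_iff (K : Type) [Field K] [NumberField K] [IsPrincipalIdealRing (𝓞 K)]
    (P : (Fin 3 → K) → Prop) (Q : 𝓞 K × 𝓞 K × 𝓞 K → Prop) (hQ : ∀ t, Q t ↔ P (vecK t))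
    (hP : ∀ (x : Fin 3 → K) (s : K), s ≠ 0 → P x → P (s • x)) : Abc K Q ↔ AbcP K P := by
  constructor
  · intro h ε hε
    obtain ⟨C, hC⟩ := h ε hε
    refine ⟨C, fun x hx hsum h0 => ?_⟩
    obtain ⟨t, ht, s, hs, e⟩ := exists_triple h0 hsum
    have a := hC t ht ((hQ t).mpr (by rw [e]; exact hP x s hs hx))
    rw [← height_vec ht, ← rad_vec ht, e, radP_smul hs] at a
    unfold heightP at a ⊢
    rwa [Height.mulHeight_smul_eq_mulHeight x hs] at a
  · intro h ε hε
    obtain ⟨C, hC⟩ := h ε hε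
    refine ⟨C, fun t ht hq => ?_⟩
    have hne : ∀ a : 𝓞 K, a ≠ 0 → (a : K) ≠ 0 := fun a ha h3 =>
      ha (RingOfIntegers.coe_eq_zero_iff.1 h3)
    have a := hC (vecK t) ((hQ t).mp hq) (by
      show algebraMap (𝓞 K) K t.1 + algebraMap (𝓞 K) K t.2.1 + algebraMap (𝓞 K) K t.2.2 = 0
      rw [← map_add, ← map_add, ht.sum, map_zero]) (by
      intro i
      have hn := ht.ne
      fin_cases i
      · exact hne _ (left_ne_zero_of_mul (left_ne_zero_of_mul hn))
      · exact hne _ (right_ne_zero_of_mul (left_ne_zero_of_mul hn))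
      · exact hne _ (right_ne_zero_of_mul hn))
    rwa [height_vec ht, rad_vec ht] at a

/-- (1) Over `𝓞 K = ℤ[(1 + √5) / 2]`, `K = ℚ(√5)`, the inequality of Q1 for the triples in lowest
terms with `N(a) = N(b)` is equivalent to the abc conjecture over `ℤ`.

(2) More generally, let `K / F` be a quadratic extension of number fields, `K = F(s)` with
`s² = δ = 4 ^ j m`, `m` odd, `s ∉ F`. The abc inequality over `K` for the vectors `x` with
`N_{K/F}(x 0) = N_{K/F}(x 1)` is equivalent to the abc conjecture over `F`. -/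
theorem result :
    (∀ (K : Type) [Field K] [NumberField K], finrank ℚ K = 2 → (∃ s : K, s ^ 2 = 5) →
      (Abc K (fun t => Algebra.norm ℤ t.1 = Algebra.norm ℤ t.2.1) ↔ Abc ℚ (fun _ => True))) ∧
    (∀ (F K : Type) [Field F] [NumberField F] [Field K] [NumberField K] [Algebra F K]
      (δ : ℤ) (j : ℕ) (m : ℤ), Odd m → δ = 4 ^ j * m → ∀ s : K, s ^ 2 = δ →
      Algebra.adjoin F {s} = ⊤ → s ∉ (algebraMap F K).range →
      (AbcP K (fun x => Algebra.norm F (x 0) = Algebra.norm F (x 1)) ↔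
        AbcP F (fun _ => True))) := by
  have h2 : (∀ (F K : Type) [Field F] [NumberField F] [Field K] [NumberField K] [Algebra F K]
      (δ : ℤ) (j : ℕ) (m : ℤ), Odd m → δ = 4 ^ j * m → ∀ s : K, s ^ 2 = δ →
      Algebra.adjoin F {s} = ⊤ → s ∉ (algebraMap F K).range →
      (AbcP K (fun x => Algebra.norm F (x 0) = Algebra.norm F (x 1)) ↔
        AbcP F (fun _ => True))) := by
    intro F K _ _ _ _ _ δ j m hm hδ s hs hgen hsF
    exact Pool.Agent.Q245.Vl.ABC_norm δ j m hm hδ s hs hgen hsF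
  refine ⟨?_, h2⟩
  rintro K _ _ hK ⟨s, hs⟩
  have hpid := Pool.Agent.Y382.Gold.pid hK hs
  have hpidQ : IsPrincipalIdealRing (𝓞 ℚ) :=
    IsPrincipalIdealRing.of_surjective (Rat.ringOfIntegersEquiv.symm : ℤ →+* 𝓞 ℚ)
      Rat.ringOfIntegersEquiv.symm.surjective
  have h3 := h2 ℚ K 5 0 5 (by decide) (by norm_num) s (by rw [hs]; norm_num) (by
    rw [eq_top_iff]
    intro x _
    obtain ⟨u, v, rfl⟩ := Pool.Agent.Y382.Gold.exists_coord hK hs x
    refine Subalgebra.add_mem _ ?_ (Subalgebra.mul_mem _ ?_ ?_)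
    · exact (eq_ratCast (algebraMap ℚ K) u) ▸ Subalgebra.algebraMap_mem _ u
    · exact (eq_ratCast (algebraMap ℚ K) v) ▸ Subalgebra.algebraMap_mem _ v
    · exact Algebra.subset_adjoin rfl) (by
    rintro ⟨q, hq⟩
    apply Pool.Agent.Y382.Gold.sq_ne q
    have h4 : algebraMap ℚ K (q ^ 2) = algebraMap ℚ K 5 := by
      rw [map_pow, hq, hs]
      norm_num
    exact (algebraMap ℚ K).injective h4)
  rw [pid_iff K (fun x => Algebra.norm ℚ (x 0) = Algebra.norm ℚ (x 1)) _ ?_ ?_, h3,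
    pid_iff ℚ (fun _ => True) _ (fun _ => Iff.rfl) (fun _ _ _ _ => trivial)]
  · intro t
    show Algebra.norm ℤ t.1 = Algebra.norm ℤ t.2.1 ↔
      Algebra.norm ℚ (t.1 : K) = Algebra.norm ℚ (t.2.1 : K)
    rw [← Algebra.coe_norm_int, ← Algebra.coe_norm_int]
    exact_mod_cast Iff.rfl
  · intro x s hs hx
    show Algebra.norm ℚ (s * x 0) = Algebra.norm ℚ (s * x 1)
    rw [map_mul, map_mul]
    rw [show Algebra.norm ℚ (x 0) = Algebra.norm ℚ (x 1) from hx]

end Pool.Agent.Results.MP_2a5a28_nt.EqualNorms
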