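import Pool.Agent.Q38.AE.Ints
import Pool.Agent.Y382.Gold

/-!
# The exceptions to the abc inequality over `ℤ[(1 + √5) / 2]`

The triples `a + b + c = 0`, `abc ≠ 0`, in lowest terms of integers of `ℚ(√5)` are counted up to
units, by their radical. We determine the exponent of the number of those with
`rad ^ M ≤ H < rad ^ L`: it is `1 - M`, for all `1/3 < M < L` with `L ≤ 1/2`, and also for `L ≤ 1`
when `M ≤ 30/77`.
-/

set_option autoImplicit false

namespace Pool.Agent.Results.MP_2a5a28_nt.ExceptionsExactExponent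

open NumberField IsDedekindDomain Filter Topology

variable {K : Type} [Field K] [NumberField K]

/-- the triples in lowest terms with `a + b + c = 0` and `abc ≠ 0` -/
structure Triple (t : 𝓞 K × 𝓞 K × 𝓞 K) : Prop where
  sum : t.1 + t.2.1 + t.2.2 = 0
  ne : t.1 * t.2.1 * t.2.2 ≠ 0
  cop : Ideal.span {t.1, t.2.1, t.2.2} = (⊤ : Ideal (𝓞 K))

/-- the height `H(a, b, c)`: the product over the field embeddings `φ : K → ℂ` (two real ones when
`K = ℚ(√5)`) of `max (|φ a|, |φ b|, |φ c|)` -/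
noncomputable def height (t : 𝓞 K × 𝓞 K × 𝓞 K) : ℝ :=
  ∏ φ : K →+* ℂ, max ‖φ t.1‖ (max ‖φ t.2.1‖ ‖φ t.2.2‖)

/-- the radical: the product of the norms of the prime ideals dividing `abc` -/
noncomputable def rad (t : 𝓞 K × 𝓞 K × 𝓞 K) : ℝ :=
  ∏ᶠ (P : HeightOneSpectrum (𝓞 K)) (_ : t.1 * t.2.1 * t.2.2 ∈ P.asIdeal),
    (Ideal.absNorm P.asIdeal : ℝ)

/-- the ratio `a / b` of a triple; two triples have the same ratio exactly when they differ by a
unit -/
noncomputable def ratio (t : 𝓞 K × 𝓞 K × 𝓞 K) : K := (t.1 : K) / (t.2.1 : K)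

/-- the ratios of the triples with `rad ≤ X` and `rad ^ M ≤ H ≤ X ^ L` -/
def Exceptions (K : Type) [Field K] [NumberField K] (M L X : ℝ) : Set K :=
  ratio '' {t : 𝓞 K × 𝓞 K × 𝓞 K | Triple t ∧ rad t ≤ X ∧ rad t ^ M ≤ height t ∧ height t ≤ X ^ L}

/-- the ratios of the triples with `rad ≤ X` and `rad ^ M ≤ H < rad ^ L` -/
def Between (K : Type) [Field K] [NumberField K] (M L X : ℝ) : Set K :=
  ratio '' {t : 𝓞 K × 𝓞 K × 𝓞 K | Triple t ∧ rad t ≤ X ∧ rad t ^ M ≤ height t ∧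
    height t < rad t ^ L}

open Pool.Agent.TH402.AK (Tri pt coe_ne)
open Pool.Agent.TH876.Loc
open Pool.Agent.Q38.AE.Cov Pool.Agent.Q38.AE.Many Pool.Agent.Q38.AE.Num Pool.Agent.Q38.AE.Ints
open Pool.Agent.Results.MP_4d5ce1_nt.ExceptionalSetExponents (counting)

omit [NumberField K] in
theorem Triple.c_eq {t : 𝓞 K × 𝓞 K × 𝓞 K} (h : Triple t) : t.2.2 = -(t.1 + t.2.1) := by
  have := h.sum
  linear_combination this

omit [NumberField K] in
theorem Triple.tri {t : 𝓞 K × 𝓞 K × 𝓞 K} (h : Triple t) : Tri t.1 t.2.1 := by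
  have h1 := h.ne
  have h2 := h.c_eq
  refine ⟨left_ne_zero_of_mul (left_ne_zero_of_mul h1),
    right_ne_zero_of_mul (left_ne_zero_of_mul h1), ?_, ?_⟩
  · intro h3
    have h4 := right_ne_zero_of_mul h1
    rw [h2, h3, neg_zero] at h4
    exact h4 rfl
  · have h3 : (1 : 𝓞 K) ∈ Ideal.span {t.1, t.2.1, t.2.2} := by rw [h.cop]; trivial
    have h4 : Ideal.span {t.1, t.2.1, t.2.2} ≤ Ideal.span {t.1, t.2.1} := by
      rw [Ideal.span_le]
      rintro x (rfl | rfl | rfl)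
      · exact Ideal.subset_span (by simp)
      · exact Ideal.subset_span (by simp)
      · rw [h2]
        exact neg_mem (add_mem (Ideal.subset_span (by simp)) (Ideal.subset_span (by simp)))
    obtain ⟨x, y, hxy⟩ := Ideal.mem_span_pair.1 (h4 h3)
    exact ⟨x, y, hxy⟩

theorem rad_eq {t : 𝓞 K × 𝓞 K × 𝓞 K} (h : Triple t) : rad t = nn (sp (ratio t)) := by
  have h1 : ∀ P : HeightOneSpectrum (𝓞 K), (t.1 * t.2.1 * t.2.2 ∈ P.asIdeal) ↔
      P ∈ sp (ratio t) := by
    intro P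
    show _ ↔ P ∈ sp (pt t.1 t.2.1)
    rw [h.tri.mem_sp, h.c_eq, mul_neg, neg_mem_iff]
  unfold rad nn
  simp_rw [h1]
  rw [finprod_mem_finset_eq_prod]
  rfl

theorem height_pos {t : 𝓞 K × 𝓞 K × 𝓞 K} (h : Triple t) : 0 < height t := by
  unfold height
  refine Finset.prod_pos fun φ _ => lt_of_lt_of_le ?_ (le_max_left _ _)
  rw [norm_pos_iff]
  intro h1
  have h2 := (map_eq_zero φ).1 h1
  exact h.tri.a0 (RingOfIntegers.coe_eq_zero_iff.1 h2)

theorem hgt_eq {t : 𝓞 K × 𝓞 K × 𝓞 K} (h : Triple t) : Real.log (height t) = hgt (ratio t) := by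
  classical
  show _ = hgt (pt t.1 t.2.1)
  rw [h.tri.hgt]
  unfold height
  have hpos : ∀ φ : K →+* ℂ, 0 < max ‖φ t.1‖ (max ‖φ t.2.1‖ ‖φ t.2.2‖) := by
    intro φ
    refine lt_of_lt_of_le ?_ (le_max_left _ _)
    rw [norm_pos_iff]
    intro h1
    have h2 := (map_eq_zero φ).1 h1
    exact h.tri.a0 (RingOfIntegers.coe_eq_zero_iff.1 h2)
  rw [Real.log_prod (fun φ _ => (hpos φ).ne')]
  have e : ∀ φ : K →+* ℂ, Real.log (max ‖φ t.1‖ (max ‖φ t.2.1‖ ‖φ t.2.2‖)) =
      (fun w : InfinitePlace K => Real.log (max (w (t.1 : K)) (max (w (t.2.1 : K))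
        (w ((t.1 + t.2.1 : 𝓞 K) : K))))) (InfinitePlace.mk φ) := by
    intro φ
    have e1 : ‖φ t.2.2‖ = ‖φ ((t.1 + t.2.1 : 𝓞 K) : K)‖ := by
      rw [h.c_eq]
      push_cast
      rw [map_neg, norm_neg]
    simp only [InfinitePlace.apply]
    rw [e1]
  rw [Finset.sum_congr rfl fun φ _ => e φ,
    ← Finset.sum_fiberwise (s := Finset.univ) (g := InfinitePlace.mk)]
  apply Finset.sum_congr rfl
  intro w _
  rw [Finset.sum_congr rfl (g := fun _ => Real.log (max (w (t.1 : K)) (max (w (t.2.1 : K))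
        (w ((t.1 + t.2.1 : 𝓞 K) : K))))) (by
    intro φ hφ
    rw [Finset.mem_filter] at hφ
    simp only [hφ.2])]
  rw [Finset.sum_const, nsmul_eq_mul]
  congr 1
  exact_mod_cast InfinitePlace.card_filter_mk_eq w

theorem inj {t s : 𝓞 K × 𝓞 K × 𝓞 K} (ht : Triple t) (hs : Triple s)
    (h : ratio t = ratio s) : ∃ u : (𝓞 K)ˣ, s = (u * t.1, u * t.2.1, u * t.2.2) := by
  have h1 := coe_ne ht.tri.b0
  have h2 := coe_ne hs.tri.b0
  unfold ratio at h
  rw [div_eq_div_iff h1 h2] at h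
  have h3 : t.1 * s.2.1 = s.1 * t.2.1 := by
    apply RingOfIntegers.coe_injective
    push_cast
    exact h
  have h4 : t.1 ∣ s.1 := by
    have : t.1 ∣ s.1 * t.2.1 := ⟨s.2.1, h3.symm⟩
    exact ht.tri.cop.dvd_of_dvd_mul_right this
  have h5 : s.1 ∣ t.1 := by
    have : s.1 ∣ t.1 * s.2.1 := ⟨t.2.1, h3⟩
    exact hs.tri.cop.dvd_of_dvd_mul_right this
  obtain ⟨u, hu⟩ := associated_of_dvd_dvd h4 h5
  refine ⟨u, ?_⟩
  have h6 : s.1 = u * t.1 := by rw [← hu, mul_comm]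
  have h7 : s.2.1 = u * t.2.1 := by
    have h8 : t.1 * s.2.1 = t.1 * (u * t.2.1) := by
      rw [h3, h6]
      ring
    exact mul_left_cancel₀ ht.tri.a0 h8
  refine Prod.ext h6 (Prod.ext h7 ?_)
  show s.2.2 = u * t.2.2
  rw [hs.c_eq, ht.c_eq, h6, h7]
  ring

theorem ratio_unit {t s : 𝓞 K × 𝓞 K × 𝓞 K} (ht : Triple t) {u : (𝓞 K)ˣ}
    (h : s = (u * t.1, u * t.2.1, u * t.2.2)) : ratio t = ratio s := by
  have hb := coe_ne ht.tri.b0
  have hu0 : ((u : 𝓞 K) : K) ≠ 0 := coe_ne u.ne_zero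
  rw [h]
  unfold ratio
  push_cast
  field_simp

/-- every point comes from a triple -/
theorem exists_triple (hK : Module.finrank ℚ K = 2) (h5 : ∃ s : K, s ^ 2 = 5) {x : K}
    (hx : Pt x) : ∃ t : 𝓞 K × 𝓞 K × 𝓞 K, Triple t ∧ ratio t = x := by
  obtain ⟨s, hs⟩ := h5
  obtain ⟨a, b, hb, hab, rfl⟩ := Pool.Agent.Y382.Gold.exists_coprime hK hs x
  obtain ⟨h1, h2⟩ := hx
  have hbK : (b : K) ≠ 0 := coe_ne hb
  have ha : a ≠ 0 := by
    rintro rfl
    exact h1 (by simp)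
  have hc : a + b ≠ 0 := by
    intro h
    apply h2
    have h3 : (a : K) + b = 0 := by
      rw [← map_add, h, map_zero]
    have h4 : (a : K) / b + 1 = ((a : K) + b) / b := by field_simp
    rw [h4, h3, zero_div]
  refine ⟨(a, b, -(a + b)), ⟨by ring, ?_, ?_⟩, rfl⟩
  · exact mul_ne_zero (mul_ne_zero ha hb) (neg_ne_zero.2 hc)
  · rw [Ideal.eq_top_iff_one]
    obtain ⟨u, v, huv⟩ := hab
    rw [← huv]
    refine Ideal.add_mem _ (Ideal.mul_mem_left _ _ (Ideal.subset_span ?_))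
      (Ideal.mul_mem_left _ _ (Ideal.subset_span ?_))
    · exact Set.mem_insert _ _
    · exact Set.mem_insert_of_mem _ (Set.mem_insert _ _)

/-- the logarithm of the radical of a point -/
noncomputable def Nl (x : K) : ℝ := Real.log (nn (sp x))

theorem Nl_eq {t : 𝓞 K × 𝓞 K × 𝓞 K} (h : Triple t) : Nl (ratio t) = Real.log (rad t) := by
  rw [rad_eq h]
  rfl

theorem mdl (hK : Module.finrank ℚ K = 2) : Pool.Agent.Q38.AE.Model.Mdl (q := 3)
    (Pt (K := K)) hgt Nl ∅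
    (al3 K) (fun x => -x) 2 (2 * Real.log 2) 1 where
  r_pos := two_pos
  c_nonneg := mul_nonneg zero_le_two (Real.log_nonneg one_le_two)
  fin := Set.finite_empty
  ne := al3_ne
  dist := al3_dist
  off := fun p hp => (off_iff _).2 (neg_pt hp)
  surj := by
    intro z hz
    obtain ⟨h0, h1⟩ := (off_iff z).1 hz
    exact ⟨-z, pt_neg h0 h1, neg_neg z⟩
  fib := by
    intro F G hF hG
    rw [one_mul]
    exact Finset.card_le_card_of_injOn (fun x => -x) (fun x hx => hG x hx)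
      (fun x _ y _ h => neg_injective h)
  h_low := by
    intro x hx
    have h1 := le_hgt' hx
    rw [hK] at h1
    exact_mod_cast h1
  h_up := by
    intro x hx
    have h1 := hgt_le' hx
    rw [hK] at h1
    exact_mod_cast h1
  N_low := by
    intro x hx
    have h1 := counting_eq hx
    rw [hK] at h1
    push_cast at h1
    exact h1.le
  N_up := by
    intro x hx
    have h1 := counting_eq hx
    rw [hK] at h1
    push_cast at h1
    show Real.log (nn (sp x)) ≤ 2 * counting ∅ (al3 K) (-x) + 2 * Real.log 2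
    rw [h1]
    have := Real.log_nonneg (one_le_two (α := ℝ))
    linarith

theorem eqE (hK : Module.finrank ℚ K = 2) (h5 : ∃ s : K, s ^ 2 = 5) {X : ℝ} (hX : 1 ≤ X)
    (M L : ℝ) : Exceptions K M L X = E (Pt (K := K)) hgt Nl M L X := by
  have hX0 : 0 < X := by linarith
  ext x
  constructor
  · rintro ⟨t, ⟨h1, h2, h3, h4⟩, rfl⟩
    have s := height_pos h1
    have r : 0 < rad t := by
      rw [rad_eq h1]
      exact lt_of_lt_of_le one_pos (one_le_nn _)
    refine ⟨h1.tri.pt, ?_, ?_, ?_⟩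
    · rw [Nl_eq h1, Real.exp_log r]
      exact h2
    · rw [Nl_eq h1, ← hgt_eq h1, ← Real.log_rpow r]
      exact Real.log_le_log (Real.rpow_pos_of_pos r _) h3
    · rw [← hgt_eq h1, ← Real.log_rpow hX0]
      exact Real.log_le_log s h4
  · rintro ⟨h0, h2, h3, h4⟩
    obtain ⟨t, h1, rfl⟩ := exists_triple hK h5 h0
    have s := height_pos h1
    have r : 0 < rad t := by
      rw [rad_eq h1]
      exact lt_of_lt_of_le one_pos (one_le_nn _)
    refine ⟨t, ⟨h1, ?_, ?_, ?_⟩, rfl⟩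
    · rw [Nl_eq h1, Real.exp_log r] at h2
      exact h2
    · rw [Nl_eq h1, ← hgt_eq h1] at h3
      rw [← Real.log_le_log_iff (Real.rpow_pos_of_pos r _) s, Real.log_rpow r]
      exact h3
    · rw [← hgt_eq h1] at h4
      rw [← Real.log_le_log_iff s (Real.rpow_pos_of_pos hX0 _), Real.log_rpow hX0]
      exact h4

theorem eqF (hK : Module.finrank ℚ K = 2) (h5 : ∃ s : K, s ^ 2 = 5)
    (M L X : ℝ) : Between K M L X = F (Pt (K := K)) hgt Nl M L X := by
  ext x
  constructor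
  · rintro ⟨t, ⟨h1, h2, h3, h4⟩, rfl⟩
    have s := height_pos h1
    have r : 0 < rad t := by
      rw [rad_eq h1]
      exact lt_of_lt_of_le one_pos (one_le_nn _)
    refine ⟨h1.tri.pt, ?_, ?_, ?_⟩
    · rw [Nl_eq h1, Real.exp_log r]
      exact h2
    · rw [Nl_eq h1, ← hgt_eq h1, ← Real.log_rpow r]
      exact Real.log_le_log (Real.rpow_pos_of_pos r _) h3
    · rw [Nl_eq h1, ← hgt_eq h1, ← Real.log_rpow r]
      exact Real.log_lt_log s h4
  · rintro ⟨h0, h2, h3, h4⟩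
    obtain ⟨t, h1, rfl⟩ := exists_triple hK h5 h0
    have s := height_pos h1
    have r : 0 < rad t := by
      rw [rad_eq h1]
      exact lt_of_lt_of_le one_pos (one_le_nn _)
    refine ⟨t, ⟨h1, ?_, ?_, ?_⟩, rfl⟩
    · rw [Nl_eq h1, Real.exp_log r] at h2
      exact h2
    · rw [Nl_eq h1, ← hgt_eq h1] at h3
      rw [← Real.log_le_log_iff (Real.rpow_pos_of_pos r _) s, Real.log_rpow r]
      exact h3
    · rw [Nl_eq h1, ← hgt_eq h1] at h4
      rw [← Real.log_lt_log_iff s (Real.rpow_pos_of_pos r _), Real.log_rpow r]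
      exact h4

/-- Let `K = ℚ(√5)` and `1/3 < M < L`, and suppose that `L ≤ 1/2`, or that `L ≤ 1` and `M ≤ 30/77`.
(1) Two triples in lowest terms have the same ratio `a / b` exactly when they differ by a unit.
(2) For every `X ≥ 1` there are, up to units, only finitely many triples `a + b + c = 0`, `abc ≠ 0`,
in lowest terms with `rad ≤ X` and `rad ^ M ≤ H ≤ X ^ L`.
(3) Their number, up to units, is `X ^ (1 - M + o(1))` for `X → ∞`.
(4) So is the number, up to units, of those with `rad ≤ X` and `rad ^ M ≤ H < rad ^ L`. -/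
theorem result : ∀ (K : Type) [Field K] [NumberField K], Module.finrank ℚ K = 2 →
    (∃ s : K, s ^ 2 = 5) →
    (∀ t s : 𝓞 K × 𝓞 K × 𝓞 K, Triple t → Triple s →
      (ratio t = ratio s ↔ ∃ u : (𝓞 K)ˣ, s = (u * t.1, u * t.2.1, u * t.2.2))) ∧
    ∀ M L : ℝ, 1 / 3 < M → M < L → (L ≤ 1 / 2 ∨ (L ≤ 1 ∧ M ≤ 30 / 77)) →
      (∀ X : ℝ, 1 ≤ X → (Exceptions K M L X).Finite ∧ Between K M L X ⊆ Exceptions K M L X) ∧
      Tendsto (fun X : ℝ => Real.log ((Exceptions K M L X).ncard : ℝ) / Real.log X) atTop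
        (𝓝 (1 - M)) ∧
      Tendsto (fun X : ℝ => Real.log ((Between K M L X).ncard : ℝ) / Real.log X) atTop
        (𝓝 (1 - M)) := by
  intro K _ _ hK h5
  refine ⟨fun t s ht hs => ⟨fun h => inj ht hs h, fun ⟨u, hu⟩ => ratio_unit ht hu⟩, ?_⟩
  intro M L hM hML hL
  have hM' : 1 / ((3 : ℕ) : ℝ) < M := by push_cast; exact hM
  have hL' : L ≤ 7 / (7 * ((3 : ℕ) : ℝ) - 6) ∨ ((3 : ℕ) = 3 ∧ L ≤ 1 / 2) ∨
      (L ≤ 3 / ((3 : ℕ) : ℝ) ∧ (((3 : ℕ) : ℝ) - 2) * M ≤ 1 - top 3) := by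
    rcases hL with h | ⟨h1, h2⟩
    · exact Or.inr (Or.inl ⟨rfl, h⟩)
    · refine Or.inr (Or.inr ⟨by norm_num; exact h1, ?_⟩)
      have e : top 3 = 47 / 77 := by
        unfold top
        norm_num
      rw [e]
      push_cast
      linarith
  have ee : (Module.finrank ℚ K : ℝ) / 2 * (1 - (((3 : ℕ) : ℝ) - 2) * M) = 1 - M := by
    rw [hK]
    push_cast
    ring
  obtain ⟨h1, h2, h3⟩ := Pool.Agent.Q38.AE.Model.exact_m (mdl hK) le_rfl hM' hML hL'
  rw [ee] at h2 h3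
  refine ⟨fun X hX => ?_, ?_, ?_⟩
  · rw [eqE hK h5 hX, eqF hK h5]
    exact h1 X hX
  · refine h2.congr' ?_
    filter_upwards [eventually_ge_atTop 1] with X hX
    rw [eqE hK h5 hX]
  · refine h3.congr fun X => ?_
    rw [eqF hK h5]

end Pool.Agent.Results.MP_2a5a28_nt.ExceptionsExactExponent
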